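import Pool.Agent.Helper64.DT.Stmts

/-! Diamond-free circle graphs (MP_866009_co): module LMX. -/

set_option autoImplicit false

namespace Pool.Agent.Helper64.DT

open Pool.Agent.Helper64.CT
open Pool.Agent.Helper64.HG (Ovl Model Circ IC HellyCircle ChordModel)

variable {V : Type}

theorem lmx_compl {G : SimpleGraph V} {u : V} {N : Set V} (h : ¬ Mixed G u N) {n : V}
    (hn : n ∈ N) (ha : G.Adj u n) : ∀ n' ∈ N, G.Adj u n' := by
  intro n' hn'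
  by_contra hc
  exact h ⟨⟨n, hn, ha⟩, n', hn', hc⟩

/-- the conflict of `x` with a component at `y0` -/
theorem lmx_conf (h1 : CT.ST_ALS) (h2 : ST_AT2) {G : SimpleGraph V} (hD : DF G) (hP : Prime G)
    {x y y0 z z' : V} (hy : y ∈ Far G x) (hy0 : y0 ∈ Far G x) (hA : Alpha G y0 x z)
    (hc : Conf G x z z') (hA' : ∀ n ∈ Att G x z', G.Adj y0 n) (hzy : ¬ Comp G x z y)
    (hq : ∃ p q, p ∈ Att G x z ∧ G.Adj x q ∧ G.Adj p q ∧ q ∉ Att G x z) : Conf G y0 x z := by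
  obtain ⟨hA1, hiff, hAtt⟩ := h1 V G y0 x z hy0 hA
  have hxy0 : x ∈ Far G y0 := Far.symm hy0
  refine ⟨hA1.2.1, ?_, ?_⟩
  · obtain ⟨p, q, hp, hxq, hpq, hqz⟩ := hq
    have hy0p : G.Adj y0 p := hA.2.2 p hp
    have hy0q : ¬ G.Adj y0 q := hD.far hp.1 hxq hpq hy0 hy0p
    have hqy0 : q ≠ y0 := by
      rintro rfl
      exact hy0.2 hxq
    have hqf : q ∈ Far G y0 := ⟨hqy0, hy0q⟩
    refine ⟨q, Comp.adj hxy0 hqf hxq, ?_⟩
    rw [hAtt]
    obtain ⟨n, hn, hnp⟩ := h2 V G hP x z y p hA.1 hy hzy hp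
    refine ⟨⟨p, hp, hpq.symm⟩, n, hn, ?_⟩
    intro hqn
    have hy0n : G.Adj y0 n := hA.2.2 n hn
    rcases hD.tr hp.1 hxq hn.1 hpq hqn with e | e
    · exact hnp e.symm
    · exact hD.far hp.1 hn.1 e hy0 hy0p hy0n
  · obtain ⟨_, ⟨u, hu, ⟨n1, hn1, ha1⟩, n2, hn2, ha2⟩, _⟩ := hc
    have hsub : ∀ n ∈ Att G x z', n ∈ Att G y0 x := by
      intro n hn
      exact ⟨hA' n hn, x, Comp.refl hxy0, hn.1.symm⟩
    exact ⟨u, (hiff u).2 hu, ⟨n1, hsub n1 hn1, ha1⟩, n2, hsub n2 hn2, ha2⟩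

theorem st_LMX (h1 : CT.ST_ALS) (h2 : ST_AT2) : ST_LMX := by
  intro V G hD hP hex x y t ht hy m z hm hconf hle hnc hq0 hqm
  obtain ⟨y0, hy0, hc0⟩ : ∃ y0, Comp G x y y0 ∧ ∀ n ∈ Att G x (z 0), G.Adj y0 n := by
    obtain ⟨⟨n, hn, hny⟩, hmix⟩ := hle 0 (Nat.zero_le _)
    obtain ⟨_, y0, hy0, ha⟩ := id hny
    exact ⟨y0, hy0, lmx_compl (hmix y0 hy0) hn ha.symm⟩
  have hall : ∀ i, i ≤ m → ∀ n ∈ Att G x (z i), G.Adj y0 n := by
    intro i
    induction i with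
    | zero => intro _; exact hc0
    | succ i ih =>
      intro hi
      have h3 := hconf i (by omega)
      obtain ⟨_, ⟨u, hu, ⟨n, hn, ha⟩, _⟩, _⟩ := h3
      have hni : n ∈ Att G x (z i) := ⟨hn.1, u, hu, ha.symm⟩
      exact lmx_compl ((hle (i + 1) hi).2 y0 hy0) hn (ih (by omega) n hni)
  have hfar : ∀ i ≤ m, z i ∈ Far G x := by
    intro i hi
    obtain ⟨⟨n, ⟨_, u, hu, _⟩, _⟩, _⟩ := hle i hi
    exact hu.left
  have hAl : ∀ i ≤ m, Alpha G y0 x (z i) := by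
    intro i hi
    exact ⟨hfar i hi, fun h => hnc i hi (hy0.trans h).symm, hall i hi⟩
  have hy0f : y0 ∈ Far G x := hy0.right
  have hcf : ∀ i < m, Conf G y0 (z i) (z (i + 1)) := by
    intro i hi
    obtain ⟨_, i1, a1⟩ := h1 V G y0 x (z i) hy0f (hAl i (by omega))
    obtain ⟨_, i2, a2⟩ := h1 V G y0 x (z (i + 1)) hy0f (hAl (i + 1) (by omega))
    obtain ⟨hn, ⟨u, hu, hmu⟩, w, hw, hmw⟩ := hconf i hi
    refine ⟨fun h => hn ((i1 _).1 h), ⟨u, (i1 u).2 hu, ?_⟩, w, (i2 w).2 hw, ?_⟩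
    · rw [a2]; exact hmu
    · rw [a1]; exact hmw
  have hx0 : Conf G y0 x (z 0) :=
    lmx_conf h1 h2 hD hP hy hy0f (hAl 0 (by omega)) (hconf 0 (by omega)) (hall 1 hm)
      (hnc 0 (by omega)) hq0
  have hxm : Conf G y0 x (z m) := by
    obtain ⟨k, rfl⟩ : ∃ k, m = k + 1 := ⟨m - 1, by omega⟩
    exact lmx_conf h1 h2 hD hP hy hy0f (hAl (k + 1) le_rfl) (hconf k (by omega)).symm
      (hall k (by omega)) (hnc (k + 1) le_rfl) hqm
  obtain ⟨t', ht'⟩ := hex y0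
  have e0 := ht'.2 x (z 0) hx0
  have em := ht'.2 x (z m) hxm
  have hkey : ∀ i, i ≤ m → (t (z 0) = t (z i) ↔ t' (z 0) = t' (z i)) := by
    intro i
    induction i with
    | zero => intro _; exact ⟨fun _ => rfl, fun _ => rfl⟩
    | succ i ih =>
      intro hi
      have g0 := ih (by omega)
      have g1 := ht.2 _ _ (hconf i (by omega))
      have g2 := ht'.2 _ _ (hcf i (by omega))
      revert g0 g1 g2
      cases t (z 0) <;> cases t (z i) <;> cases t (z (i + 1)) <;> cases t' (z 0) <;>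
        cases t' (z i) <;> cases t' (z (i + 1)) <;> simp
  refine (hkey m le_rfl).2 ?_
  revert e0 em
  cases t' x <;> cases t' (z 0) <;> cases t' (z m) <;> simp

end Pool.Agent.Helper64.DT
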